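import Pool.Agent.U481.NS.PubB
import Pool.Agent.U481.VL.AngC
import Pool.Agent.Q85.CL.FinD
import Pool.Agent.Q85.CL.PerD
import Pool.Agent.Q95.CL.Far
import Pool.Agent.Q285.CL.WSc
import Pool.Agent.Q85.CL.Blow

/-!
Closed chains of arcs of vortex lines at the blow-up of smooth solutions of the three-dimensional
Navier-Stokes equations, periodic or in the whole space, and the angles between large vorticities.

At the blow-up time `T` there is a singular point `a`. For each singular point `a` there are times
`t` arbitrarily close to `T` such that near `a`, in the region where the vorticity is larger than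
the threshold `m t`, there are closed chains of arcs of vortex lines: one moves along an arc, jumps
to the beginning of the next arc, and returns to the starting point, where the total length of the
jumps is less than `ε` times the total length of the arcs. All the arcs are passed in the direction
of the vorticity `ω` (take `θ = 1`), and the same holds for the field `θ ω` for every continuous
choice `θ = ± 1` of the sign of the nonzero vorticity vectors.

There is no chain of this kind if there is a function with Lipschitz constant one which increases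
with the rate `ε` along the arcs (a time function). By means of the functions `e · y` one obtains
the second statement: two of the vectors `θ ω` above the threshold make an angle which is larger
than `arccos (-1/3) - ε'` (the tetrahedral angle 109.47 degrees; vectors whose mutual angles are
smaller than this lie in a half-space cone).

For `θ = 1`: if near each point, for all `t` near `T`, any two vorticity vectors above the threshold
make an angle of at most 109 degrees, then there is no blow-up. No continuity of the direction of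
the vorticity is needed, in space or in time, and no type I bound: in the theorem of Constantin and
Fefferman (1993) the direction is Lipschitz continuous, in the one of Beirao da Veiga and Berselli
(2002) it is Hoelder continuous with the exponent 1/2 (they do not distinguish `ω` and `-ω`), in the
one of Giga and Miura (2011) it is uniformly continuous and the singularity is of type I.
-/

set_option autoImplicit false

open MeasureTheory Set Metric
open scoped ContDiff
open Pool.Agent.U481.NS.Pub

namespace Pool.Agent.Results.MP_6bf1e5_an.ClosedVortexChains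

/-- `(u, p)` is a smooth solution of the Navier-Stokes equations with viscosity `ν` and without
force on `[0, T) × ℝ³`, with period one in the three directions. -/
structure PeriodicSolution (ν T : ℝ) (u : ℝ → V → V) (p : ℝ → V → ℝ) : Prop where
  smooth_u : ContDiffOn ℝ ∞ (fun z : ℝ × V => u z.1 z.2) (Ico 0 T ×ˢ univ)
  smooth_p : ContDiffOn ℝ ∞ (fun z : ℝ × V => p z.1 z.2) (Ico 0 T ×ˢ univ)
  per_u : ∀ t ∈ Ico 0 T, ∀ (j : Fin 3) (x : V), u t (x + Pi.single j 1) = u t x
  per_p : ∀ t ∈ Ico 0 T, ∀ (j : Fin 3) (x : V), p t (x + Pi.single j 1) = p t x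
  divfree : ∀ t ∈ Ico 0 T, ∀ x, ∑ i, D i (fun y => u t y i) x = 0
  momentum : ∀ t ∈ Ioo 0 T, ∀ x i,
    deriv (fun s => u s x i) t + ∑ j, u t x j * D j (fun y => u t y i) x
      = ν * ∑ j, D j (D j (fun y => u t y i)) x - D i (p t) x

/-- `(u, p)` is a smooth solution of the Navier-Stokes equations with viscosity `ν` and without
force on `(0, T) × ℝ³`, with bounded energy, finite dissipation and locally integrable pressure. -/
structure WholeSpaceSolution (ν T : ℝ) (u : ℝ → V → V) (p : ℝ → V → ℝ) : Prop where
  smooth_u : ContDiffOn ℝ ∞ (fun z : ℝ × V => u z.1 z.2) (Ioo 0 T ×ˢ univ)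
  smooth_p : ContDiffOn ℝ ∞ (fun z : ℝ × V => p z.1 z.2) (Ioo 0 T ×ˢ univ)
  divfree : ∀ t ∈ Ioo 0 T, ∀ x, ∑ i, D i (fun y => u t y i) x = 0
  momentum : ∀ t ∈ Ioo 0 T, ∀ x i,
    deriv (fun s => u s x i) t + ∑ j, u t x j * D j (fun y => u t y i) x
      = ν * ∑ j, D j (D j (fun y => u t y i)) x - D i (p t) x
  energy : ∃ E : ℝ, ∀ t ∈ Ioo 0 T, Integrable (fun x => ∑ i, u t x i ^ 2) ∧
    ∫ x, ∑ i, u t x i ^ 2 ≤ E
  dissipation : IntegrableOn
    (fun z : ℝ × V => ∑ i, ∑ j, D j (fun y => u z.1 y i) z.2 ^ 2) (Ioo 0 T ×ˢ univ)
  pressure : ∀ R : ℝ, IntegrableOn (fun z : ℝ × V => p z.1 z.2) (Ioo 0 T ×ˢ ball 0 R)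

/-- An arc of length `l > 0` from `q` to `q'` of a curve of the field `z`, inside of the set `D`:
the curve `γ`, parametrised by the arc length, has the unit tangent vector `z / |z|`. -/
def Arc (z : V → V) (D : Set V) (q q' : V) (l : ℝ) : Prop :=
  0 < l ∧ ∃ γ : ℝ → V, γ 0 = q ∧ γ l = q' ∧ ∀ s ∈ Icc (0 : ℝ) l, γ s ∈ D ∧
    HasDerivWithinAt γ ((len (z (γ s)))⁻¹ • z (γ s)) (Icc 0 l) s

/-- A closed chain of `n ≥ 1` arcs inside of `D`, the arc number `i` from `q i` to `q' i`, such that
the total length of the gaps between the end `q' i` of an arc and the beginning `q (i + 1)` of the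
next one is less than `ε` times the total length of the arcs. -/
def ClosedChain (z : V → V) (D : Set V) (ε : ℝ) : Prop :=
  ∃ (n : ℕ) (q q' : ℕ → V) (l : ℕ → ℝ), 0 < n ∧ q n = q 0 ∧ (∀ i < n, Arc z D (q i) (q' i) (l i)) ∧
    ∑ i ∈ Finset.range n, len (q (i + 1) - q' i) < ε * ∑ i ∈ Finset.range n, l i

/-- `θ` is a continuous choice of the sign of the nonzero vectors of the field `z` in the cube with
centre `a` and side `2 R`. -/
def Orientation (θ : V → ℝ) (a : V) (R : ℝ) (z : V → V) : Prop :=
  (∀ y, θ y = 1 ∨ θ y = -1) ∧ ContinuousOn θ {y | ‖y - a‖ ≤ R ∧ z y ≠ 0}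

/-- Let `ν > 0` and let `(u, p)` be a smooth solution of the Navier-Stokes equations, either
periodic on `[0, T) × ℝ³`, or on `(0, T) × ℝ³` with bounded energy, finite dissipation and locally
integrable pressure.

If `u` is unbounded near the time `T` then it has a singular point `a` (`u` is unbounded in every
neighbourhood of `(T, a)`).

Let `a` be a singular point, `R > 0`, `0 ≤ T₀ < T`, `ε > 0`, and let `m t`, `T₀ < t < T`, be a
threshold: continuous nonnegative functions which are, uniformly in `t`, in the Kato class of the
cube `Q` with centre `a` and side `2 R`. Then there is a time `t` in `(T₀, T)` such that for every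
continuous choice `θ` of the sign of the vorticity `ω` at the time `t` there is a closed chain of
arcs of the field `θ ω`, contained in the part of `Q` where `|ω| > m t`, with gaps of total
length less than `ε` times the total length of the arcs, and there are two points `x`, `y` in this
part of `Q` such that the cosine of the angle between `θ(x) ω(x)` and `θ(y) ω(y)` is less than
`ε - 1 / 3`. -/
theorem result {ν T : ℝ} (hν : 0 < ν) {u : ℝ → V → V} {p : ℝ → V → ℝ}
    (h : PeriodicSolution ν T u p ∨ WholeSpaceSolution ν T u p) :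
    ((∀ B T₀ : ℝ, T₀ < T → ∃ t ∈ Ioo 0 T, T₀ < t ∧ ∃ x, B < ‖u t x‖) →
      ∃ a, Singular T u a) ∧
    ∀ a, Singular T u a → ∀ (R T₀ ε : ℝ) (m : ℝ → V → ℝ), 0 < R → 0 ≤ T₀ → T₀ < T → 0 < ε →
      Threshold T₀ T a R m →
        ∃ t ∈ Ioo T₀ T, ∀ θ : V → ℝ, Orientation θ a R (curl (u t)) →
          ClosedChain (fun y => θ y • curl (u t) y)
            {y | ‖y - a‖ ≤ R ∧ m t y < len (curl (u t) y)} ε ∧
          ∃ x y, ‖x - a‖ ≤ R ∧ m t x < len (curl (u t) x) ∧
            ‖y - a‖ ≤ R ∧ m t y < len (curl (u t) y) ∧
            θ x * θ y * (curl (u t) x ⬝ᵥ curl (u t) y)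
              < (ε - 1 / 3) * (len (curl (u t) x) * len (curl (u t) y)) := by
  rcases h with h | h
  · have hI : H459R3.NS.IsSol ν T u p :=
      ⟨h.smooth_u, h.smooth_p, h.per_u, h.per_p, h.divfree, h.momentum⟩
    refine ⟨fun hB => Pool.Agent.Q85.CL.sing_per hI hB, fun a hs R T₀ ε m hR hT0 hT₀ hε hm => ?_⟩
    obtain ⟨p', hD⟩ := Pool.Agent.Q85.CL.perD hν
      (Pool.Agent.Q85.CL.Sing.pos (u := u) (a := a) hs) hI a
    exact Pool.Agent.U481.VL.chainA hν hD (mem_ball_self (by norm_num)) hs hT0 hT₀ hε hR hm.cont
      hm.nonneg hm.kt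
  · obtain ⟨E, hE⟩ := h.energy
    have hW : Pool.Agent.Q85.CL.WSl ν T E u p :=
      ⟨h.smooth_u, h.smooth_p, h.divfree, h.momentum, fun t ht => (hE t ht).1,
        fun t ht => (hE t ht).2, h.dissipation, h.pressure⟩
    refine ⟨fun hB => Pool.Agent.Q85.CL.sing_whole Pool.Agent.Q95.CL.far Pool.Agent.Q285.CL.wsc hν
      hW hB, fun a hs R T₀ ε m hR hT0 hT₀ hε hm => ?_⟩
    exact Pool.Agent.U481.VL.chainA hν (Pool.Agent.Q85.CL.whole_D hW a)
      (mem_ball_self (by norm_num)) hs hT0 hT₀ hε hR hm.cont hm.nonneg hm.kt

end Pool.Agent.Results.MP_6bf1e5_an.ClosedVortexChains
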