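import Pool.Agent.U172.SS.Main

/-!
Regularity of the three-dimensional Navier-Stokes equations from one helical part of the velocity
in a sum space: the Prodi-Serrin classes of velocities plus the Beale-Kato-Majda / Beirao da Veiga
classes of vorticities.

Every smooth periodic divergence-free field `v` is the sum of its mean value and of its two helical
parts `hel 1 v` and `hel (-1) v`, where `hel σ v` is the field with the Fourier coefficients
`helC σ v k = ½ (v̂(k) + σ i k × v̂(k) / |k|)`, `k ≠ 0`: the projection of `v` on the fields `f` with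
`curl f = σ (-Δ)^(1/2) f`. `helVort σ v = (curl v + σ (-Δ)^(1/2) v) / 2 = curl (hel σ v)` is the
vorticity of `hel σ v`, one of the two helical parts of the vorticity of `v`.

The proof: the production of `‖u‖²_{H^{1/2}}` by the nonlinear term is a linear functional of the
controlled helical part `f` (the other factors being the velocity and the other helical part `a`),
namely `T(f) = 2 σ ∫ (u × Λ a) · Λ f`, `Λ = (-Δ)^(1/2)` (`conv_TT` in `Pool.Agent.U172.SS.Comb`).
There are two representations of it. One has no derivative on `f` (`G3` in `Pool.Agent.U172.SS.Lin`;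
the top order terms cancel for any helical `f`). The other is an integral over the harmonic
extension to the half space, in which only `Λ f` occurs and all factors are of first order
(`tri_ibp`, `tri_pois` in `Pool.Agent.U172.SS.Tri`), so that a bound of the vorticity in `L^∞` is
enough.

Notation: `V = ℝ³`, `cube = [0,1]³`, `IsSol ν T u P`: `(u, P)` is a smooth `1`-periodic solution of
the Navier-Stokes equations without force on `[0, T)`; `SPV`: smooth and `1`-periodic; `pd`: partial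
derivative; `half v = ∑ 2 π |k| |v̂(k)|²`, the square of the homogeneous Sobolev norm of order `1/2`;
`len`: Euclidean length; `BesovLe a r w b`: the harmonic extension
`poisV τ w = exp (-τ (-Δ)^(1/2)) w` satisfies `‖poisV τ w‖_r ≤ b τ^(a-1)` for all `τ > 0`
(for `a = 1` this follows from `‖w‖_r ≤ b`); `Mulp θ b f`: `f ∈ L²(cube)` and `‖f g‖₂ ≤ b ‖g‖₂^(1-θ) ‖∇g‖₂^θ` for all
smooth periodic `g` with mean value zero.
-/

open MeasureTheory Set H459R3.NS Pool.Agent.U583.HC
open Pool.Agent.U172.NS (helVort len BesovLe)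
open scoped ENNReal

set_option autoImplicit false

/-- (1) There is an absolute constant `c > 0` such that for `3 < p ≤ ∞`, `2/q + 3/p = 1`,
`3/2 < r ≤ ∞`, `2/m + 3/r = 2`, `3/2 < s ≤ 6`, `2/n + 3/s = 2` and `ν > 0` there is a constant `C`
with the following property. Let `(u, P)` be a smooth `1`-periodic solution of the Navier-Stokes
equations on `[0, T)`, `β, γ, δ ≥ 0` and `∫₀ᵀ (β^q + γ^m + δ^n) < ∞`. Suppose that for almost every
`t ∈ (0, T)` one of the two helical parts `hel σ (u t)` of the velocity is a sum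
`y + w + hel σ z`, where the components of `y` have norm at most `c ν` in `L³`, the components of
`w` have norm at most `β t` in `L^p`, and `z` is a smooth periodic divergence-free field for which
the components of `helVort σ z = curl (hel σ z)` have norm at most `γ t` in `L^r`; or else
that the pointwise minimum of the lengths of the two helical parts of the vorticity has norm at
most `δ t` in `L^s`. Then
`‖u(t)‖²_{H^{1/2}} ≤ ‖u(0)‖²_{H^{1/2}} exp (C ∫₀ᵗ (β^q + γ^m + δ^n))` for all `t ∈ [0, T)` and `u`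
is bounded on `[0, T) × ℝ³`.

(2) The same, for `0 ≤ θ < 1`, `q = 2 / (1 - θ)`, with the multiplier norms `Mulp 1` and `Mulp θ`
instead of the norms of `L³` and `L^(3/θ)`, and, for `0 < a ≤ 1`, `3/r < 1 + a`,
`2/m + 3/r = 1 + a`, with the Besov norm `BesovLe a r` of `helVort σ z` (order `a - 1`, which
amounts to the norm of order `a` of `hel σ z`) instead of the norm of `L^r` (the case `a = 1`). -/
theorem Pool.Agent.Results.MP_6bf1e5_an.HelicalSum.result :
    (∃ c : ℝ, 0 < c ∧ ∀ p : ℝ≥0∞, 3 < p → ∀ q : ℝ, 3 * (p⁻¹).toReal + 2 / q = 1 →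
      ∀ r : ℝ≥0∞, 3 / 2 < r → ∀ m : ℝ, 3 * (r⁻¹).toReal + 2 / m = 2 →
      ∀ s n : ℝ, 3 / 2 < s → s ≤ 6 → 3 / s + 2 / n = 2 → ∀ ν : ℝ, 0 < ν → ∃ C : ℝ, 0 ≤ C ∧
      ∀ (T : ℝ) (u : ℝ → V → V) (P : ℝ → V → ℝ) (β γ δ : ℝ → ℝ),
        IsSol ν T u P → (∀ t ∈ Ioo 0 T, 0 ≤ β t ∧ 0 ≤ γ t ∧ 0 ≤ δ t) →
        IntegrableOn (fun t => β t ^ q) (Ioo 0 T) → IntegrableOn (fun t => γ t ^ m) (Ioo 0 T) →
        IntegrableOn (fun t => δ t ^ n) (Ioo 0 T) →
        (∀ᵐ t ∂(volume.restrict (Ioo 0 T)), (∃ (σ : ℝ) (y w z : V → V), (σ = 1 ∨ σ = -1) ∧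
          AEStronglyMeasurable y (volume.restrict cube) ∧
          AEStronglyMeasurable w (volume.restrict cube) ∧
          SPV z ∧ (∀ x, ∑ i, pd i (fun y => z y i) x = 0) ∧
          (∀ᵐ x ∂(volume.restrict cube), hel σ (u t) x = y x + w x + hel σ z x) ∧
          (∀ i, eLpNorm (fun x => y x i) 3 (volume.restrict cube) ≤ ENNReal.ofReal (c * ν)) ∧
          (∀ i, eLpNorm (fun x => w x i) p (volume.restrict cube) ≤ ENNReal.ofReal (β t)) ∧
          ∀ i, eLpNorm (fun x => helVort σ z x i) r (volume.restrict cube)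
            ≤ ENNReal.ofReal (γ t)) ∨
          eLpNorm (fun x => min (len (helVort 1 (u t) x)) (len (helVort (-1) (u t) x)))
            (ENNReal.ofReal s) (volume.restrict cube) ≤ ENNReal.ofReal (δ t)) →
        (∀ t ∈ Ico 0 T, half (u t) ≤ half (u 0)
          * Real.exp (C * ∫ s in Ioo 0 t, (β s ^ q + γ s ^ m + δ s ^ n))) ∧
        ∃ M, ∀ t ∈ Ico 0 T, ∀ x i, |u t x i| ≤ M) ∧
    ∃ c : ℝ, 0 < c ∧ ∀ θ : ℝ, 0 ≤ θ → θ < 1 → ∀ a : ℝ, 0 < a → a ≤ 1 →
      ∀ r : ℝ≥0∞, r ≠ 0 → 3 * (r⁻¹).toReal < 1 + a → ∀ m : ℝ, 3 * (r⁻¹).toReal + 2 / m = 1 + a →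
      ∀ s n : ℝ, 3 / 2 < s → s ≤ 6 → 3 / s + 2 / n = 2 → ∀ ν : ℝ, 0 < ν → ∃ C : ℝ, 0 ≤ C ∧
      ∀ (T : ℝ) (u : ℝ → V → V) (P : ℝ → V → ℝ) (β γ δ : ℝ → ℝ),
        IsSol ν T u P → (∀ t ∈ Ioo 0 T, 0 ≤ β t ∧ 0 ≤ γ t ∧ 0 ≤ δ t) →
        IntegrableOn (fun t => β t ^ (2 / (1 - θ))) (Ioo 0 T) →
        IntegrableOn (fun t => γ t ^ m) (Ioo 0 T) → IntegrableOn (fun t => δ t ^ n) (Ioo 0 T) →
        (∀ᵐ t ∂(volume.restrict (Ioo 0 T)), (∃ (σ : ℝ) (y w z : V → V), (σ = 1 ∨ σ = -1) ∧
          SPV z ∧ (∀ x, ∑ i, pd i (fun y => z y i) x = 0) ∧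
          (∀ᵐ x ∂(volume.restrict cube), hel σ (u t) x = y x + w x + hel σ z x) ∧
          (∀ i, Mulp 1 (c * ν) (fun x => y x i)) ∧ (∀ i, Mulp θ (β t) (fun x => w x i)) ∧
          BesovLe a r (helVort σ z) (γ t)) ∨
          eLpNorm (fun x => min (len (helVort 1 (u t) x)) (len (helVort (-1) (u t) x)))
            (ENNReal.ofReal s) (volume.restrict cube) ≤ ENNReal.ofReal (δ t)) →
        (∀ t ∈ Ico 0 T, half (u t) ≤ half (u 0)
          * Real.exp (C * ∫ s in Ioo 0 t, (β s ^ (2 / (1 - θ)) + γ s ^ m + δ s ^ n))) ∧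
        ∃ M, ∀ t ∈ Ico 0 T, ∀ x i, |u t x i| ≤ M :=
  ⟨Pool.Agent.U172.SS.sum_main, Pool.Agent.U172.SS.sum_mul⟩
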