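import Pool.Agent.U136.DS.Gen2

set_option autoImplicit false

/-!
# Navier-Stokes equations with a small random or generic dispersive term

We add to the Navier-Stokes equations on the torus `(ℝ / 2πℤ) ^ 3` (true nonlinearity, true
viscosity) a skew-adjoint Fourier multiplier `(L u)_k = i λ_k u_k`, `λ` real and odd; it does not
change the energy law:
`∂_t u + P (u · ∇) u + L u = ν Δ u`, `div u = 0`.

(1) If `λ` has polynomial growth and few triads are near-resonant (for some `τ > 3`, `θ < 2` each
wave vector `m` in the cube of size `R` is in at most `B R ^ θ` triads `k + l + m = 0` with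
`|λ_k + λ_l + λ_m| < c max ^ τ`), then there are unique global smooth solutions for all `ν > 0`
and all smooth data.

(2) Let `λ_k = |k| ^ σ Z_k`, `σ > 4`, with `Z_k` bounded, of bounded density, independent apart from
`Z_{-k} = -Z_k`. Almost surely, for all `ν > 0`, all amplitudes `ε ≠ 0` (arbitrarily small) and all
smooth data, the equations with `ε L` are globally well-posed. One fixed (frozen) sample of the
frequencies works for all `ν`, `ε` and data.

(3) Let `d ≥ 9` be odd and let `λ⁰` be odd and of polynomial growth. For almost every real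
homogeneous polynomial `p` of degree `d` in three variables (Lebesgue measure on the coefficients)
the same holds for `ε (λ⁰ + p)`, for all `ν > 0`, `ε ≠ 0` and all smooth data. For `λ⁰ = 0` the term
`L u` is `± ε p(∂) u`: a local differential operator with constant real coefficients.

Proof: one normal form step removes the non-resonant triads; the correction of the Sobolev norm
`H ^ s` and the remainder (a sum over quadruples) are of lower order than `H ^ s` and the
dissipation because `τ > 3`. The near-resonant triads form a sparse set: by Cauchy-Schwarz their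
trilinear form on the shell of frequencies `R` has norm `R ^ (θ/2)` with `θ/2 < 1` instead of
`R ^ (3/2)`. For random frequencies the degrees are bounded by moments of elementary symmetric
functions and Fubini. For polynomials a weighted number of near-resonant triads is finite almost
everywhere, because the vector of the monomials of degree `d` summed over a triad has length at
least `κ max ^ (d - 1)`.

Parts of this run: helpers 29, 84, 94, 97, 103, 136, 208, 324, 338, 394, 401, 411, 448, 451, 460,
473, 643, 692, 736, 741, 884, 908, 913, 981; three estimates (ALG, EST, SHL) are from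
Pool/Agent/N983/RT in the starting library.
-/

namespace Pool.Agent.Results.MP_6bf1e5_an.RandomDispersion

open MeasureTheory ProbabilityTheory Pool.Agent.N983.RT Pool.Agent.U136.DS Pool.Agent.U29.EU

/-- The Navier-Stokes equations with a dispersive term with few near-resonances, in particular with
an arbitrarily small random dispersive term of order `σ > 4`, or with an arbitrarily small generic
differential operator of odd order `d ≥ 9`, are globally well-posed for all smooth data. -/
theorem result :
    (∀ lam : Wv → ℝ, Disp lam → ∀ c₁ τ θ B : ℝ, 0 < c₁ → 3 < τ → θ < 2 → Deg lam c₁ τ θ B →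
      ∀ ν : ℝ, 0 < ν → GWPD ν lam) ∧
    (∀ σ : ℝ, 4 < σ → ∀ (Ω : Type) [MeasurableSpace Ω] (μ : Measure Ω) [IsProbabilityMeasure μ]
      (Z : Sym2 Wv → Ω → ℝ) (e : Wv → ℝ), (∀ c, Measurable (Z c)) → iIndepFun Z μ → Sgn e →
      ∀ D D' : ℝ, Dens μ Z D → (∀ c, ∀ᵐ ω ∂μ, |Z c ω| ≤ D') →
        ∀ᵐ ω ∂μ, ∀ ν ε : ℝ, 0 < ν → ε ≠ 0 → GWPD ν (fun k => ε * rlam σ e Z ω k)) ∧
    ∀ d : ℕ, Odd d → 9 ≤ d → ∀ lam : Wv → ℝ, Disp lam →
      ∀ᵐ c : Mi d → ℝ, ∀ ν ε : ℝ, 0 < ν → ε ≠ 0 → GWPD ν (fun k => ε * (lam k + pol c k)) :=
  ⟨fun lam hlam c₁ τ θ B hc hτ hθ hdeg ν hν => crit' lam hlam c₁ τ θ B hc hτ hθ hdeg ν hν,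
    fun σ hσ Ω _ μ _ Z e hZ hi he D D' hD hb => rand σ hσ Ω μ Z e hZ hi he D D' hD hb,
    fun d hd h9 lam hlam => gen' d hd h9 lam hlam⟩

end Pool.Agent.Results.MP_6bf1e5_an.RandomDispersion
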